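import Mathlib

set_option autoImplicit false

namespace Pool.Agent.Balls

/-- Planar shadow of `a line meets three balls`: `u2` is the middle one. -/
def Bad (τ K : ℝ) (u1 u2 u3 : ℝ × ℝ) : Prop :=
  ∃ l : ℝ, 0 ≤ l ∧ l ≤ 1 ∧ |u2.1 - ((1 - l) * u1.1 + l * u3.1)| ≤ τ ∧
    |u2.2 - ((1 - l) * u1.2 + l * u3.2)| ≤ τ ∧
    l * (1 - l) * ((u1.1 - u3.1) ^ 2 + (u1.2 - u3.2) ^ 2) ≤ K

theorem Bad.symm {τ K : ℝ} {u1 u2 u3 : ℝ × ℝ} (h : Bad τ K u1 u2 u3) : Bad τ K u3 u2 u1 := by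
  obtain ⟨l, h0, h1, h2, h3, h4⟩ := h
  refine ⟨1 - l, by linarith, by linarith, ?_, ?_, ?_⟩
  · have : u2.1 - ((1 - (1 - l)) * u3.1 + (1 - l) * u1.1) =
        u2.1 - ((1 - l) * u1.1 + l * u3.1) := by ring
    rw [this]; exact h2
  · have : u2.2 - ((1 - (1 - l)) * u3.2 + (1 - l) * u1.2) =
        u2.2 - ((1 - l) * u1.2 + l * u3.2) := by ring
    rw [this]; exact h3
  · have : (1 - l) * (1 - (1 - l)) * ((u3.1 - u1.1) ^ 2 + (u3.2 - u1.2) ^ 2) =
        l * (1 - l) * ((u1.1 - u3.1) ^ 2 + (u1.2 - u3.2) ^ 2) := by ring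
    rw [this]; exact h4

/-- sup distance -/
def sd (a b : ℝ × ℝ) : ℝ := max |a.1 - b.1| |a.2 - b.2|

theorem sd_comm (a b : ℝ × ℝ) : sd a b = sd b a := by
  unfold sd; rw [abs_sub_comm a.1, abs_sub_comm a.2]

theorem sd_nonneg (a b : ℝ × ℝ) : 0 ≤ sd a b := le_max_of_le_left (abs_nonneg _)

theorem sd_sq_le (a b : ℝ × ℝ) : sd a b ^ 2 ≤ (a.1 - b.1) ^ 2 + (a.2 - b.2) ^ 2 := by
  unfold sd
  rcases max_cases |a.1 - b.1| |a.2 - b.2| with ⟨h, _⟩ | ⟨h, _⟩
  · rw [h, sq_abs]; nlinarith [sq_nonneg (a.2 - b.2)]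
  · rw [h, sq_abs]; nlinarith [sq_nonneg (a.1 - b.1)]

/-- The forbidden region near `a` in direction `b`. -/
def Reg (τ K : ℝ) (a b u : ℝ × ℝ) : Prop :=
  sd u a ≤ 2 * K / sd a b + τ ∧
  |(u.1 - a.1) * (b.2 - a.2) - (u.2 - a.2) * (b.1 - a.1)| ≤
    4 * τ * (sd a b + (2 * K / sd a b + τ))

theorem reg_of_bad_middle_aux {τ K : ℝ} (hτ : 0 ≤ τ) {a b u : ℝ × ℝ}
    (hD : 0 < sd a b) {l : ℝ} (h0 : 0 ≤ l) (h1 : l ≤ 1 / 2)
    (h2 : |u.1 - ((1 - l) * a.1 + l * b.1)| ≤ τ) (h3 : |u.2 - ((1 - l) * a.2 + l * b.2)| ≤ τ)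
    (h4 : l * (1 - l) * ((a.1 - b.1) ^ 2 + (a.2 - b.2) ^ 2) ≤ K) : Reg τ K a b u := by
  set D := sd a b with hDdef
  have hsq := sd_sq_le a b
  rw [← hDdef] at hsq
  have hK : l * D * D ≤ 2 * K := by
    have : l * (1 / 2) * (D ^ 2) ≤ l * (1 - l) * ((a.1 - b.1) ^ 2 + (a.2 - b.2) ^ 2) := by
      have e1 : l * (1 / 2) ≤ l * (1 - l) := by nlinarith
      have e2 : 0 ≤ D ^ 2 := sq_nonneg _
      have e3 : 0 ≤ l * (1 - l) := by nlinarith
      calc l * (1 / 2) * D ^ 2 ≤ l * (1 - l) * D ^ 2 := mul_le_mul_of_nonneg_right e1 e2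
        _ ≤ _ := mul_le_mul_of_nonneg_left hsq e3
    nlinarith
  have hlD : l * D ≤ 2 * K / D := by
    rw [le_div_iff₀ hD]; exact hK
  have hx : |a.1 - b.1| ≤ D := le_max_left _ _
  have hy : |a.2 - b.2| ≤ D := le_max_right _ _
  have hKD : 0 ≤ 2 * K / D := le_trans (by positivity) hlD
  constructor
  · change max |u.1 - a.1| |u.2 - a.2| ≤ 2 * K / D + τ
    apply max_le
    · have e : u.1 - a.1 = (u.1 - ((1 - l) * a.1 + l * b.1)) - l * (a.1 - b.1) := by ring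
      rw [e]
      refine (abs_sub _ _).trans ?_
      have : |l * (a.1 - b.1)| ≤ l * D := by
        rw [abs_mul, abs_of_nonneg h0]
        exact mul_le_mul_of_nonneg_left hx h0
      linarith
    · have e : u.2 - a.2 = (u.2 - ((1 - l) * a.2 + l * b.2)) - l * (a.2 - b.2) := by ring
      rw [e]
      refine (abs_sub _ _).trans ?_
      have : |l * (a.2 - b.2)| ≤ l * D := by
        rw [abs_mul, abs_of_nonneg h0]
        exact mul_le_mul_of_nonneg_left hy h0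
      linarith
  · set w1 := u.1 - ((1 - l) * a.1 + l * b.1) with hw1
    set w2 := u.2 - ((1 - l) * a.2 + l * b.2) with hw2
    have e : (u.1 - a.1) * (b.2 - a.2) - (u.2 - a.2) * (b.1 - a.1) =
        w2 * (a.1 - b.1) - w1 * (a.2 - b.2) := by
      rw [hw1, hw2]; ring
    rw [e]
    have e1 : |w2 * (a.1 - b.1)| ≤ τ * D := by
      rw [abs_mul]; exact mul_le_mul h3 hx (abs_nonneg _) hτ
    have e2 : |w1 * (a.2 - b.2)| ≤ τ * D := by
      rw [abs_mul]; exact mul_le_mul h2 hy (abs_nonneg _) hτ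
    refine (abs_sub _ _).trans ?_
    have e3 : 0 ≤ τ * (2 * K / D + τ) := mul_nonneg hτ (by linarith)
    have e4 : 0 ≤ τ * D := mul_nonneg hτ hD.le
    nlinarith

theorem reg_of_bad_middle {τ K : ℝ} (hτ : 0 ≤ τ) {a b u : ℝ × ℝ}
    (hD : 0 < sd a b) (h : Bad τ K a u b) : Reg τ K a b u ∨ Reg τ K b a u := by
  obtain ⟨l, h0, h1, h2, h3, h4⟩ := h
  rcases le_total l (1 / 2) with hl | hl
  · left; exact reg_of_bad_middle_aux hτ hD h0 hl h2 h3 h4
  · right
    refine reg_of_bad_middle_aux (l := 1 - l) hτ (by rw [sd_comm]; exact hD) (by linarith)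
      (by linarith) ?_ ?_ ?_
    · have : u.1 - ((1 - (1 - l)) * b.1 + (1 - l) * a.1) =
        u.1 - ((1 - l) * a.1 + l * b.1) := by ring
      rw [this]; exact h2
    · have : u.2 - ((1 - (1 - l)) * b.2 + (1 - l) * a.2) =
        u.2 - ((1 - l) * a.2 + l * b.2) := by ring
      rw [this]; exact h3
    · have : (1 - l) * (1 - (1 - l)) * ((b.1 - a.1) ^ 2 + (b.2 - a.2) ^ 2) =
        l * (1 - l) * ((a.1 - b.1) ^ 2 + (a.2 - b.2) ^ 2) := by ring
      rw [this]; exact h4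

theorem reg_of_bad_end {τ K : ℝ} (hτ : 0 ≤ τ) {a b u : ℝ × ℝ}
    (hD : 2 * τ ≤ sd a b) (hD0 : 0 < sd a b) (h : Bad τ K u a b) : Reg τ K a b u := by
  obtain ⟨l, h0, h1, h2, h3, h4⟩ := h
  set D := sd a b with hDdef
  set E := sd u b with hEdef
  have hE0 : 0 ≤ E := sd_nonneg _ _
  have hsq := sd_sq_le u b
  rw [← hEdef] at hsq
  set w1 := a.1 - ((1 - l) * u.1 + l * b.1) with hw1
  set w2 := a.2 - ((1 - l) * u.2 + l * b.2) with hw2
  have hux : |u.1 - b.1| ≤ E := le_max_left _ _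
  have huy : |u.2 - b.2| ≤ E := le_max_right _ _
  have hax : |a.1 - b.1| ≤ D := le_max_left _ _
  have hay : |a.2 - b.2| ≤ D := le_max_right _ _
  have hl1 : 0 ≤ 1 - l := by linarith
  -- (1-l) E ≥ D/2
  have hDE : D ≤ (1 - l) * E + τ := by
    rw [hDdef]; unfold sd
    apply max_le
    · have e : a.1 - b.1 = w1 + (1 - l) * (u.1 - b.1) := by rw [hw1]; ring
      rw [e]
      refine (abs_add_le _ _).trans ?_
      rw [abs_mul, abs_of_nonneg hl1]
      have := mul_le_mul_of_nonneg_left hux hl1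
      linarith
    · have e : a.2 - b.2 = w2 + (1 - l) * (u.2 - b.2) := by rw [hw2]; ring
      rw [e]
      refine (abs_add_le _ _).trans ?_
      rw [abs_mul, abs_of_nonneg hl1]
      have := mul_le_mul_of_nonneg_left huy hl1
      linarith
  have hhalf : D / 2 ≤ (1 - l) * E := by linarith
  have hK : l * (1 - l) * E ^ 2 ≤ K :=
    (mul_le_mul_of_nonneg_left hsq (mul_nonneg h0 hl1)).trans h4
  have hlE : l * E ≤ 2 * K / D := by
    rw [le_div_iff₀ hD0]
    have : l * E * (D / 2) ≤ l * E * ((1 - l) * E) :=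
      mul_le_mul_of_nonneg_left hhalf (mul_nonneg h0 hE0)
    nlinarith
  have hKD : 0 ≤ 2 * K / D := le_trans (mul_nonneg h0 hE0) hlE
  have hua : sd u a ≤ 2 * K / D + τ := by
    unfold sd
    apply max_le
    · have e : u.1 - a.1 = l * (u.1 - b.1) - w1 := by rw [hw1]; ring
      rw [e]
      refine (abs_sub _ _).trans ?_
      rw [abs_mul, abs_of_nonneg h0]
      have := mul_le_mul_of_nonneg_left hux h0
      linarith
    · have e : u.2 - a.2 = l * (u.2 - b.2) - w2 := by rw [hw2]; ring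
      rw [e]
      refine (abs_sub _ _).trans ?_
      rw [abs_mul, abs_of_nonneg h0]
      have := mul_le_mul_of_nonneg_left huy h0
      linarith
  refine ⟨hua, ?_⟩
  -- cross product
  set X := (u.1 - a.1) * (b.2 - a.2) - (u.2 - a.2) * (b.1 - a.1) with hX
  have e : (1 - l) * X = w1 * (a.2 - b.2) - w2 * (a.1 - b.1) := by
    rw [hX, hw1, hw2]; ring
  have hXl : (1 - l) * |X| ≤ 2 * τ * D := by
    have : (1 - l) * |X| = |(1 - l) * X| := by rw [abs_mul, abs_of_nonneg hl1]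
    rw [this, e]
    refine (abs_sub _ _).trans ?_
    have e1 : |w1 * (a.2 - b.2)| ≤ τ * D := by
      rw [abs_mul]; exact mul_le_mul h2 hay (abs_nonneg _) hτ
    have e2 : |w2 * (a.1 - b.1)| ≤ τ * D := by
      rw [abs_mul]; exact mul_le_mul h3 hax (abs_nonneg _) hτ
    linarith
  have hEle : E ≤ sd u a + D := by
    rw [hEdef]; unfold sd at *
    apply max_le
    · have : u.1 - b.1 = (u.1 - a.1) + (a.1 - b.1) := by ring
      rw [this]
      exact (abs_add_le _ _).trans (add_le_add (le_max_left _ _) hax)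
    · have : u.2 - b.2 = (u.2 - a.2) + (a.2 - b.2) := by ring
      rw [this]
      exact (abs_add_le _ _).trans (add_le_add (le_max_right _ _) hay)
  -- |X| * (D/2) ≤ |X| (1-l) E ≤ 2 τ D E
  have h5 : |X| * (D / 2) ≤ 2 * τ * D * E := by
    calc |X| * (D / 2) ≤ |X| * ((1 - l) * E) := mul_le_mul_of_nonneg_left hhalf (abs_nonneg _)
      _ = ((1 - l) * |X|) * E := by ring
      _ ≤ 2 * τ * D * E := mul_le_mul_of_nonneg_right hXl hE0
  have h6 : |X| ≤ 4 * τ * E := by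
    have : |X| * (D / 2) ≤ (4 * τ * E) * (D / 2) := by linarith
    exact le_of_mul_le_mul_right this (by linarith)
  calc |X| ≤ 4 * τ * E := h6
    _ ≤ 4 * τ * (D + (2 * K / D + τ)) := by
      apply mul_le_mul_of_nonneg_left _ (by positivity)
      linarith

end Pool.Agent.Balls
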