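import Pool.Agent.Lib.Balls.Greedy2

set_option autoImplicit false

namespace Pool.Agent.Balls

/-- one coordinate: closeness of the middle point to the chord -/
theorem coord_close {s r l c1 c2 c3 X1 X2 X3 : ℝ} (h0 : 0 ≤ l) (h1 : l ≤ 1)
    (e1 : |X1 - c1| ≤ r) (e2 : |X2 - c2| ≤ r) (e3 : |X3 - c3| ≤ r)
    (hX : X2 = (1 - l) * X1 + l * X3) (hs : s = c2 - ((1 - l) * c1 + l * c3)) : |s| ≤ 2 * r := by
  rw [abs_le] at e1 e2 e3 ⊢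
  rw [hs]
  have a1 : (1 - l) * (X1 - c1) ≤ (1 - l) * r := mul_le_mul_of_nonneg_left e1.2 (by linarith)
  have a2 : (1 - l) * (-r) ≤ (1 - l) * (X1 - c1) := mul_le_mul_of_nonneg_left e1.1 (by linarith)
  have a3 : l * (X3 - c3) ≤ l * r := mul_le_mul_of_nonneg_left e3.2 h0
  have a4 : l * (-r) ≤ l * (X3 - c3) := mul_le_mul_of_nonneg_left e3.1 h0
  constructor <;> nlinarith

theorem line_bad {M r l : ℝ} (hM : 1 ≤ M) (hr : 0 ≤ r) (hr1 : 72 * r ≤ 10) (h0 : 0 ≤ l) (h1 : l ≤ 1)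
    {u1 u2 u3 : ℝ × ℝ} (b1 : 0 ≤ u1.1 ∧ u1.1 ≤ M ∧ 0 ≤ u1.2 ∧ u1.2 ≤ M)
    (b3 : 0 ≤ u3.1 ∧ u3.1 ≤ M ∧ 0 ≤ u3.2 ∧ u3.2 ≤ M)
    {X1 X2 X3 Y1 Y2 Y3 Z1 Z2 Z3 : ℝ}
    (hX1 : |X1 - u1.1 / (3 * M)| ≤ r) (hX2 : |X2 - u2.1 / (3 * M)| ≤ r)
    (hX3 : |X3 - u3.1 / (3 * M)| ≤ r)
    (hY1 : |Y1 - u1.2 / (3 * M)| ≤ r) (hY2 : |Y2 - u2.2 / (3 * M)| ≤ r)
    (hY3 : |Y3 - u3.2 / (3 * M)| ≤ r)
    (hZ1 : |Z1 - (u1.1 ^ 2 + u1.2 ^ 2) / (3 * M ^ 2)| ≤ r)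
    (hZ2 : |Z2 - (u2.1 ^ 2 + u2.2 ^ 2) / (3 * M ^ 2)| ≤ r)
    (hZ3 : |Z3 - (u3.1 ^ 2 + u3.2 ^ 2) / (3 * M ^ 2)| ≤ r)
    (hX : X2 = (1 - l) * X1 + l * X3) (hY : Y2 = (1 - l) * Y1 + l * Y3)
    (hZ : Z2 = (1 - l) * Z1 + l * Z3) :
    Bad (6 * M * r) (40 * r * M ^ 2) u1 u2 u3 := by
  have hM0 : 0 < M := by linarith
  have cx := coord_close h0 h1 hX1 hX2 hX3 hX rfl
  have cy := coord_close h0 h1 hY1 hY2 hY3 hY rfl
  have cz := coord_close h0 h1 hZ1 hZ2 hZ3 hZ rfl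
  set wx := u2.1 - ((1 - l) * u1.1 + l * u3.1) with hwx
  set wy := u2.2 - ((1 - l) * u1.2 + l * u3.2) with hwy
  have ex : u2.1 / (3 * M) - ((1 - l) * (u1.1 / (3 * M)) + l * (u3.1 / (3 * M))) = wx / (3 * M) := by
    rw [hwx]; field_simp
  have ey : u2.2 / (3 * M) - ((1 - l) * (u1.2 / (3 * M)) + l * (u3.2 / (3 * M))) = wy / (3 * M) := by
    rw [hwy]; field_simp
  rw [ex, abs_div, abs_of_pos (by positivity : (0 : ℝ) < 3 * M), div_le_iff₀ (by positivity)] at cx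
  rw [ey, abs_div, abs_of_pos (by positivity : (0 : ℝ) < 3 * M), div_le_iff₀ (by positivity)] at cy
  have cx' : |wx| ≤ 6 * M * r := by linarith
  have cy' : |wy| ≤ 6 * M * r := by linarith
  refine ⟨l, h0, h1, cx', cy', ?_⟩
  have ez : (u2.1 ^ 2 + u2.2 ^ 2) / (3 * M ^ 2) - ((1 - l) * ((u1.1 ^ 2 + u1.2 ^ 2) / (3 * M ^ 2)) +
      l * ((u3.1 ^ 2 + u3.2 ^ 2) / (3 * M ^ 2))) =
      ((u2.1 ^ 2 + u2.2 ^ 2) - ((1 - l) * (u1.1 ^ 2 + u1.2 ^ 2) + l * (u3.1 ^ 2 + u3.2 ^ 2))) /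
        (3 * M ^ 2) := by
    field_simp
  rw [ez, abs_div, abs_of_pos (by positivity : (0 : ℝ) < 3 * M ^ 2),
    div_le_iff₀ (by positivity)] at cz
  have cz' := (abs_le.mp cz).1
  -- bounds on squares
  set t := 6 * M * r with ht
  have ht0 : 0 ≤ t := by positivity
  set mx := (1 - l) * u1.1 + l * u3.1 with hmx
  set my := (1 - l) * u1.2 + l * u3.2 with hmy
  have hl : 0 ≤ 1 - l := by linarith
  have mx0 : 0 ≤ mx := add_nonneg (mul_nonneg hl b1.1) (mul_nonneg h0 b3.1)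
  have my0 : 0 ≤ my := add_nonneg (mul_nonneg hl b1.2.2.1) (mul_nonneg h0 b3.2.2.1)
  have mxM : mx ≤ M := by
    have a1 := mul_le_mul_of_nonneg_left b1.2.1 hl
    have a2 := mul_le_mul_of_nonneg_left b3.2.1 h0
    have a3 : (1 - l) * M + l * M = M := by ring
    rw [hmx]; linarith
  have myM : my ≤ M := by
    have a1 := mul_le_mul_of_nonneg_left b1.2.2.2 hl
    have a2 := mul_le_mul_of_nonneg_left b3.2.2.2 h0
    have a3 : (1 - l) * M + l * M = M := by ring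
    rw [hmy]; linarith
  have sx : u2.1 ^ 2 ≤ mx ^ 2 + 2 * M * t + t ^ 2 := by
    have e : u2.1 ^ 2 = mx ^ 2 + 2 * mx * wx + wx ^ 2 := by rw [hwx]; ring
    have a1 : wx ^ 2 ≤ t ^ 2 := sq_le_sq' (by linarith [(abs_le.mp cx').1]) (abs_le.mp cx').2
    have a2 : mx * wx ≤ M * t := by
      calc mx * wx ≤ mx * t := mul_le_mul_of_nonneg_left (abs_le.mp cx').2 mx0
        _ ≤ M * t := mul_le_mul_of_nonneg_right mxM ht0
    rw [e]; linarith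
  have sy : u2.2 ^ 2 ≤ my ^ 2 + 2 * M * t + t ^ 2 := by
    have e : u2.2 ^ 2 = my ^ 2 + 2 * my * wy + wy ^ 2 := by rw [hwy]; ring
    have a1 : wy ^ 2 ≤ t ^ 2 := sq_le_sq' (by linarith [(abs_le.mp cy').1]) (abs_le.mp cy').2
    have a2 : my * wy ≤ M * t := by
      calc my * wy ≤ my * t := mul_le_mul_of_nonneg_left (abs_le.mp cy').2 my0
        _ ≤ M * t := mul_le_mul_of_nonneg_right myM ht0
    rw [e]; linarith
  have idx : l * (1 - l) * ((u1.1 - u3.1) ^ 2 + (u1.2 - u3.2) ^ 2) =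
      ((1 - l) * (u1.1 ^ 2 + u1.2 ^ 2) + l * (u3.1 ^ 2 + u3.2 ^ 2)) - (mx ^ 2 + my ^ 2) := by
    rw [hmx, hmy]; ring
  rw [idx]
  have e1 : 2 * M * t = 12 * r * M ^ 2 := by rw [ht]; ring
  have e2 : t ^ 2 = (36 * r) * (r * M ^ 2) := by rw [ht]; ring
  have e3 : (36 * r) * (r * M ^ 2) ≤ 5 * (r * M ^ 2) :=
    mul_le_mul_of_nonneg_right (by linarith) (by positivity)
  have e4 : 2 * r * (3 * M ^ 2) = 6 * r * M ^ 2 := by ring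
  have e5 : r * M ^ 2 * 40 = 40 * r * M ^ 2 := by ring
  linarith

abbrev E3 : Type := EuclideanSpace ℝ (Fin 3)

/-- the point of the paraboloid -/
noncomputable def pt (M : ℝ) (u : ℝ × ℝ) : E3 :=
  !₂[u.1 / (3 * M), u.2 / (3 * M), (u.1 ^ 2 + u.2 ^ 2) / (3 * M ^ 2)]

theorem pt_norm {M : ℝ} (hM : 1 ≤ M) {u : ℝ × ℝ} (hu : 0 ≤ u.1 ∧ u.1 ≤ M ∧ 0 ≤ u.2 ∧ u.2 ≤ M) :
    ‖pt M u‖ ≤ 9 / 10 := by
  have hM0 : 0 < M := by linarith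
  obtain ⟨h1, h2, h3, h4⟩ := hu
  have hx : (u.1 / (3 * M)) ^ 2 ≤ 1 / 9 := by
    have a : u.1 / (3 * M) ≤ 1 / 3 := by rw [div_le_iff₀ (by positivity)]; linarith
    have b : 0 ≤ u.1 / (3 * M) := by positivity
    nlinarith
  have hy : (u.2 / (3 * M)) ^ 2 ≤ 1 / 9 := by
    have a : u.2 / (3 * M) ≤ 1 / 3 := by rw [div_le_iff₀ (by positivity)]; linarith
    have b : 0 ≤ u.2 / (3 * M) := by positivity
    nlinarith
  have hz : ((u.1 ^ 2 + u.2 ^ 2) / (3 * M ^ 2)) ^ 2 ≤ 4 / 9 := by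
    have a : (u.1 ^ 2 + u.2 ^ 2) / (3 * M ^ 2) ≤ 2 / 3 := by
      rw [div_le_iff₀ (by positivity)]; nlinarith
    have b : 0 ≤ (u.1 ^ 2 + u.2 ^ 2) / (3 * M ^ 2) := by positivity
    nlinarith
  rw [EuclideanSpace.norm_eq]
  rw [Real.sqrt_le_left (by norm_num)]
  simp only [Fin.sum_univ_three, pt, Real.norm_eq_abs, sq_abs]
  simp only [Matrix.cons_val_zero, Matrix.cons_val_one, Matrix.cons_val]
  norm_num
  linarith

theorem pt_ball {M r : ℝ} (hM : 1 ≤ M) (hr : r ≤ 1 / 10) {u : ℝ × ℝ}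
    (hu : 0 ≤ u.1 ∧ u.1 ≤ M ∧ 0 ≤ u.2 ∧ u.2 ≤ M) :
    Metric.closedBall (pt M u) r ⊆ Metric.closedBall (0 : E3) 1 := by
  intro x hx
  rw [Metric.mem_closedBall, dist_eq_norm] at hx
  rw [Metric.mem_closedBall, dist_zero_right]
  have h1 := pt_norm hM hu
  have h2 : ‖x‖ ≤ ‖x - pt M u‖ + ‖pt M u‖ := by
    have := norm_add_le (x - pt M u) (pt M u)
    simpa using this
  linarith

theorem coord_le {x c : E3} {r : ℝ} (h : x ∈ Metric.closedBall c r) (i : Fin 3) :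
    |x i - c i| ≤ r := by
  rw [Metric.mem_closedBall, dist_eq_norm] at h
  have := PiLp.norm_apply_le (x - c) i
  rw [Real.norm_eq_abs] at this
  have e : (x - c) i = x i - c i := rfl
  rw [e] at this
  linarith

theorem three_bad {M r : ℝ} (hM : 1 ≤ M) (hr : 0 ≤ r) (hr1 : 72 * r ≤ 10)
    {u1 u2 u3 : ℝ × ℝ} (b1 : 0 ≤ u1.1 ∧ u1.1 ≤ M ∧ 0 ≤ u1.2 ∧ u1.2 ≤ M)
    (b3 : 0 ≤ u3.1 ∧ u3.1 ≤ M ∧ 0 ≤ u3.2 ∧ u3.2 ≤ M)
    (a v : E3) {t1 t2 t3 : ℝ} (h12 : t1 ≤ t2) (h23 : t2 ≤ t3)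
    (m1 : a + t1 • v ∈ Metric.closedBall (pt M u1) r)
    (m2 : a + t2 • v ∈ Metric.closedBall (pt M u2) r)
    (m3 : a + t3 • v ∈ Metric.closedBall (pt M u3) r) :
    Bad (6 * M * r) (40 * r * M ^ 2) u1 u2 u3 := by
  obtain ⟨l, h0, h1, hl⟩ : ∃ l : ℝ, 0 ≤ l ∧ l ≤ 1 ∧ t2 = (1 - l) * t1 + l * t3 := by
    rcases eq_or_lt_of_le (h12.trans h23) with h | h
    · exact ⟨0, le_rfl, zero_le_one, by linarith⟩
    · have h13 : 0 < t3 - t1 := by linarith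
      refine ⟨(t2 - t1) / (t3 - t1), div_nonneg (by linarith) h13.le, ?_, ?_⟩
      · rw [div_le_one h13]; linarith
      · field_simp; ring
  have hc : ∀ (i : Fin 3) (t : ℝ), (a + t • v) i = a i + t * v i := fun i t => rfl
  have hmid : ∀ i : Fin 3, (a + t2 • v) i = (1 - l) * (a + t1 • v) i + l * (a + t3 • v) i := by
    intro i
    rw [hc, hc, hc, hl]; ring
  exact line_bad hM hr hr1 h0 h1 b1 b3 (coord_le m1 0) (coord_le m2 0) (coord_le m3 0)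
    (coord_le m1 1) (coord_le m2 1) (coord_le m3 1) (coord_le m1 2) (coord_le m2 2) (coord_le m3 2)
    (hmid 0) (hmid 1) (hmid 2)

end Pool.Agent.Balls
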