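import Mathlib

set_option autoImplicit false

namespace Pool.Agent.Balls

theorem card_interval_le (F : Finset ℤ) (c Θ : ℝ) (hΘ : 0 ≤ Θ) (h : ∀ x ∈ F, |(x : ℝ) - c| ≤ Θ) :
    (F.card : ℝ) ≤ 2 * Θ + 1 := by
  have hsub : F ⊆ Finset.Icc ⌈c - Θ⌉ ⌊c + Θ⌋ := by
    intro x hx
    have := abs_le.mp (h x hx)
    rw [Finset.mem_Icc]
    exact ⟨Int.ceil_le.mpr (by linarith), Int.le_floor.mpr (by linarith)⟩
  have h1 := Finset.card_le_card hsub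
  rw [Int.card_Icc] at h1
  have h2 : (F.card : ℝ) ≤ ((⌊c + Θ⌋ + 1 - ⌈c - Θ⌉).toNat : ℝ) := by exact_mod_cast h1
  refine h2.trans ?_
  have h3 : ((⌊c + Θ⌋ + 1 - ⌈c - Θ⌉).toNat : ℝ) ≤ max ((⌊c + Θ⌋ + 1 - ⌈c - Θ⌉ : ℤ) : ℝ) 0 := by
    rcases le_total 0 (⌊c + Θ⌋ + 1 - ⌈c - Θ⌉) with h | h
    · rw [← Int.cast_natCast, Int.toNat_of_nonneg h]; exact le_max_left _ _
    · rw [Int.toNat_of_nonpos h]; simp
  refine h3.trans (max_le ?_ (by linarith))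
  push_cast
  have h4 := Int.floor_le (c + Θ)
  have h5 := Int.le_ceil (c - Θ)
  linarith

/-- Points of the integer grid in a thin strip (first coordinate dominant). -/
theorem strip_aux (T : Finset (ℤ × ℤ)) (v1 v2 : ℤ) (L Θ : ℝ) (hL : 0 ≤ L) (hΘ : 0 ≤ Θ)
    (hv : 0 < |(v1 : ℝ)|)
    (h1 : ∀ w ∈ T, |(w.1 : ℝ)| ≤ L)
    (h2 : ∀ w ∈ T, |(w.1 : ℝ) * v2 - w.2 * v1| ≤ Θ * |(v1 : ℝ)|) :
    (T.card : ℝ) ≤ (2 * L + 1) * (2 * Θ + 1) := by
  have himg : ((T.image Prod.fst).card : ℝ) ≤ 2 * L + 1 := by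
    apply card_interval_le _ 0 L hL
    intro x hx
    obtain ⟨w, hw, rfl⟩ := Finset.mem_image.mp hx
    simpa using h1 w hw
  have hfib : ∀ x ∈ T.image Prod.fst, (T.filter fun w => w.1 = x).card ≤ ⌊2 * Θ + 1⌋₊ := by
    intro x _
    apply Nat.le_floor
    have : (T.filter fun w => w.1 = x).card = ((T.filter fun w => w.1 = x).image Prod.snd).card := by
      symm
      apply Finset.card_image_of_injOn
      intro a ha b hb hab
      simp only [Finset.coe_filter, Set.mem_setOf_eq] at ha hb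
      exact Prod.ext (ha.2.trans hb.2.symm) hab
    rw [this]
    apply card_interval_le _ ((x : ℝ) * v2 / v1) Θ hΘ
    intro y hy
    obtain ⟨w, hw, rfl⟩ := Finset.mem_image.mp hy
    rw [Finset.mem_filter] at hw
    have h3 := h2 w hw.1
    rw [hw.2] at h3
    have hne : (v1 : ℝ) ≠ 0 := abs_pos.mp hv
    have h4 : |(w.2 : ℝ) - (x : ℝ) * v2 / v1| * |(v1 : ℝ)| ≤ Θ * |(v1 : ℝ)| := by
      rw [← abs_mul]
      have : ((w.2 : ℝ) - (x : ℝ) * v2 / v1) * v1 = -((x : ℝ) * v2 - w.2 * v1) := by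
        field_simp; ring
      rw [this, abs_neg]; exact h3
    exact le_of_mul_le_mul_right h4 hv
  have h5 := Finset.card_le_mul_card_image T _ hfib
  have h6 : (T.card : ℝ) ≤ (⌊2 * Θ + 1⌋₊ : ℝ) * ((T.image Prod.fst).card : ℝ) := by
    exact_mod_cast h5
  refine h6.trans ?_
  have h7 : (⌊2 * Θ + 1⌋₊ : ℝ) ≤ 2 * Θ + 1 := Nat.floor_le (by linarith)
  calc (⌊2 * Θ + 1⌋₊ : ℝ) * ((T.image Prod.fst).card : ℝ)
      ≤ (2 * Θ + 1) * (2 * L + 1) := mul_le_mul h7 himg (by positivity) (by linarith)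
    _ = _ := by ring

theorem strip_card (T : Finset (ℤ × ℤ)) (v1 v2 : ℤ) (L Θ : ℝ) (hL : 0 ≤ L) (hΘ : 0 ≤ Θ)
    (hv : 0 < max |(v1 : ℝ)| |(v2 : ℝ)|)
    (h1 : ∀ w ∈ T, |(w.1 : ℝ)| ≤ L) (h1' : ∀ w ∈ T, |(w.2 : ℝ)| ≤ L)
    (h2 : ∀ w ∈ T, |(w.1 : ℝ) * v2 - w.2 * v1| ≤ Θ * max |(v1 : ℝ)| |(v2 : ℝ)|) :
    (T.card : ℝ) ≤ (2 * L + 1) * (2 * Θ + 1) := by
  rcases max_cases |(v1 : ℝ)| |(v2 : ℝ)| with ⟨h, _⟩ | ⟨h, _⟩
  · rw [h] at hv h2
    exact strip_aux T v1 v2 L Θ hL hΘ hv h1 h2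
  · rw [h] at hv h2
    have := strip_aux (T.map (Equiv.prodComm ℤ ℤ).toEmbedding) v2 v1 L Θ hL hΘ hv ?_ ?_
    · rwa [Finset.card_map] at this
    · intro w hw
      obtain ⟨w', hw', rfl⟩ := Finset.mem_map.mp hw
      simpa using h1' w' hw'
    · intro w hw
      obtain ⟨w', hw', rfl⟩ := Finset.mem_map.mp hw
      have := h2 w' hw'
      simp only [Equiv.coe_toEmbedding, Equiv.prodComm_apply, Prod.fst_swap, Prod.snd_swap]
      rw [abs_sub_comm]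
      exact this

/-- Number of integer vectors of sup norm exactly `m`. -/
theorem card_sphere (m : ℕ) (hm : 1 ≤ m) (T : Finset (ℤ × ℤ))
    (h : ∀ w ∈ T, max w.1.natAbs w.2.natAbs = m) : T.card ≤ 8 * m := by
  classical
  have hsub : T ⊆ (Finset.Icc (-(m : ℤ)) m ×ˢ Finset.Icc (-(m : ℤ)) m) \
      (Finset.Icc (-((m : ℤ) - 1)) ((m : ℤ) - 1) ×ˢ Finset.Icc (-((m : ℤ) - 1)) ((m : ℤ) - 1)) := by
    intro w hw
    have := h w hw
    simp only [Finset.mem_sdiff, Finset.mem_product, Finset.mem_Icc]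
    omega
  refine (Finset.card_le_card hsub).trans ?_
  rw [Finset.card_sdiff_of_subset]
  · simp only [Finset.card_product, Int.card_Icc]
    obtain ⟨p, rfl⟩ : ∃ p, m = p + 1 := ⟨m - 1, by omega⟩
    have e1 : (((p + 1 : ℕ) : ℤ) + 1 - -((p + 1 : ℕ) : ℤ)).toNat = 2 * p + 3 := by omega
    have e2 : (((p + 1 : ℕ) : ℤ) - 1 + 1 - -(((p + 1 : ℕ) : ℤ) - 1)).toNat = 2 * p + 1 := by omega
    rw [e1, e2]
    have : (2 * p + 3) * (2 * p + 3) = (2 * p + 1) * (2 * p + 1) + 8 * (p + 1) := by ring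
    omega
  · intro w hw
    simp only [Finset.mem_product, Finset.mem_Icc] at hw ⊢
    omega

end Pool.Agent.Balls
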