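import Pool.Agent.Lib.Balls.Bad
import Pool.Agent.Lib.Balls.Strip

set_option autoImplicit false

namespace Pool.Agent.Balls

/-- coordinates of candidate points: inner third of the cells of side `9 j^2` -/
noncomputable def Cand1 (j : ℕ) : Finset ℤ :=
  (Finset.Ico (0 : ℤ) (2 * (3 * j) ^ 5)).filter
    (fun u => 3 * (j : ℤ) ^ 2 ≤ u % (9 * (j : ℤ) ^ 2) ∧ u % (9 * (j : ℤ) ^ 2) < 6 * (j : ℤ) ^ 2)

noncomputable def Cand (j : ℕ) : Finset (ℤ × ℤ) := Cand1 j ×ˢ Cand1 j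

def cell (j : ℕ) (u : ℤ × ℤ) : ℤ × ℤ := (u.1 / (9 * (j : ℤ) ^ 2), u.2 / (9 * (j : ℤ) ^ 2))

/-- distance of cells -/
def kd (j : ℕ) (a b : ℤ × ℤ) : ℕ :=
  max ((cell j b).1 - (cell j a).1).natAbs ((cell j b).2 - (cell j a).2).natAbs

def toR (u : ℤ × ℤ) : ℝ × ℝ := ((u.1 : ℝ), (u.2 : ℝ))

theorem card_cand1_ge (j : ℕ) (hj : 1 ≤ j) : (2 * (3 * j) ^ 3) * (3 * j ^ 2) ≤ (Cand1 j).card := by
  have hinj : Set.InjOn (fun p : ℕ × ℕ => 9 * (j : ℤ) ^ 2 * p.1 + (3 * (j : ℤ) ^ 2 + p.2))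
      (↑(Finset.range (2 * (3 * j) ^ 3) ×ˢ Finset.range (3 * j ^ 2)) : Set (ℕ × ℕ)) := by
    intro p hp p' hp' hpp
    simp only [Finset.coe_product, Set.mem_prod, Finset.coe_range, Set.mem_Iio] at hp hp'
    simp only at hpp
    have hj2 : (0 : ℤ) < (j : ℤ) ^ 2 := by positivity
    have h1 : (p.2 : ℤ) < 3 * (j : ℤ) ^ 2 := by exact_mod_cast hp.2
    have h1' : (p'.2 : ℤ) < 3 * (j : ℤ) ^ 2 := by exact_mod_cast hp'.2
    have hd : ∀ x y : ℕ, (y : ℤ) < 3 * (j : ℤ) ^ 2 →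
        (9 * (j : ℤ) ^ 2 * x + (3 * (j : ℤ) ^ 2 + y)) / (9 * (j : ℤ) ^ 2) = x := by
      intro x y hy
      rw [Int.mul_add_ediv_left _ _ (by positivity)]
      rw [Int.ediv_eq_zero_of_lt (by positivity) (by linarith)]
      simp
    have e1 := hd p.1 p.2 h1
    have e2 := hd p'.1 p'.2 h1'
    rw [hpp, e2] at e1
    have e3 : p'.1 = p.1 := by exact_mod_cast e1
    rw [e3] at hpp
    have e4 : (p.2 : ℤ) = p'.2 := by linarith
    exact Prod.ext e3.symm (by exact_mod_cast e4)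
  have hcard : (Finset.range (2 * (3 * j) ^ 3) ×ˢ Finset.range (3 * j ^ 2)).card =
      (2 * (3 * j) ^ 3) * (3 * j ^ 2) := by
    rw [Finset.card_product, Finset.card_range, Finset.card_range]
  rw [← hcard, ← Finset.card_image_of_injOn hinj]
  apply Finset.card_le_card
  intro u hu
  obtain ⟨p, hp, rfl⟩ := Finset.mem_image.mp hu
  rw [Finset.mem_product, Finset.mem_range, Finset.mem_range] at hp
  have h1 : (p.2 : ℤ) < 3 * (j : ℤ) ^ 2 := by exact_mod_cast hp.2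
  have h2 : (p.1 : ℤ) + 1 ≤ 2 * (3 * (j : ℤ)) ^ 3 := by exact_mod_cast hp.1
  have hj2 : (0 : ℤ) < (j : ℤ) ^ 2 := by positivity
  unfold Cand1
  rw [Finset.mem_filter, Finset.mem_Ico]
  have hmod : (9 * (j : ℤ) ^ 2 * p.1 + (3 * (j : ℤ) ^ 2 + p.2)) % (9 * (j : ℤ) ^ 2) =
      3 * (j : ℤ) ^ 2 + p.2 := by
    rw [add_comm, Int.add_mul_emod_self_left]
    exact Int.emod_eq_of_lt (by positivity) (by linarith)
  refine ⟨⟨by positivity, ?_⟩, ?_⟩
  · have h3 : 9 * (j : ℤ) ^ 2 * ((p.1 : ℤ) + 1) ≤ 9 * (j : ℤ) ^ 2 * (2 * (3 * (j : ℤ)) ^ 3) :=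
      mul_le_mul_of_nonneg_left h2 (by positivity)
    have h4 : 9 * (j : ℤ) ^ 2 * (2 * (3 * (j : ℤ)) ^ 3) = 2 * (3 * (j : ℤ)) ^ 5 := by ring
    linarith
  · rw [hmod]
    constructor
    · have : (0 : ℤ) ≤ p.2 := by positivity
      linarith
    · linarith

theorem cand1_fiber (j : ℕ) (hj : 1 ≤ j) (c : ℤ) :
    ((Cand1 j).filter (fun u => u / (9 * (j : ℤ) ^ 2) = c)).card ≤ 3 * j ^ 2 := by
  have hj2 : (0 : ℤ) < (j : ℤ) ^ 2 := by positivity
  have : ((Cand1 j).filter (fun u => u / (9 * (j : ℤ) ^ 2) = c)).card ≤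
      (Finset.Ico (9 * (j : ℤ) ^ 2 * c + 3 * (j : ℤ) ^ 2)
        (9 * (j : ℤ) ^ 2 * c + 6 * (j : ℤ) ^ 2)).card := by
    apply Finset.card_le_card
    intro u hu
    unfold Cand1 at hu
    rw [Finset.mem_filter, Finset.mem_filter] at hu
    rw [Finset.mem_Ico]
    have h1 := Int.mul_ediv_add_emod u (9 * (j : ℤ) ^ 2)
    rw [hu.2] at h1
    constructor <;> linarith [hu.1.2.1, hu.1.2.2]
  refine this.trans ?_
  rw [Int.card_Ico]
  have : (9 * (j : ℤ) ^ 2 * c + 6 * (j : ℤ) ^ 2 - (9 * (j : ℤ) ^ 2 * c + 3 * (j : ℤ) ^ 2)) =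
      ((3 * j ^ 2 : ℕ) : ℤ) := by push_cast; ring
  rw [this, Int.toNat_natCast]

theorem cand_fiber (j : ℕ) (hj : 1 ≤ j) (a : ℤ × ℤ) :
    ((Cand j).filter (fun u => cell j u = cell j a)).card ≤ (3 * j ^ 2) ^ 2 := by
  have hsub : (Cand j).filter (fun u => cell j u = cell j a) ⊆
      ((Cand1 j).filter (fun u => u / (9 * (j : ℤ) ^ 2) = (cell j a).1)) ×ˢ
      ((Cand1 j).filter (fun u => u / (9 * (j : ℤ) ^ 2) = (cell j a).2)) := by
    intro u hu
    rw [Finset.mem_filter] at hu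
    obtain ⟨hu1, hu2⟩ := hu
    unfold Cand at hu1
    rw [Finset.mem_product] at hu1 ⊢
    rw [Finset.mem_filter, Finset.mem_filter]
    exact ⟨⟨hu1.1, congrArg Prod.fst hu2⟩, ⟨hu1.2, congrArg Prod.snd hu2⟩⟩
  refine (Finset.card_le_card hsub).trans ?_
  rw [Finset.card_product]
  calc _ ≤ (3 * j ^ 2) * (3 * j ^ 2) :=
        Nat.mul_le_mul (cand1_fiber j hj _) (cand1_fiber j hj _)
    _ = _ := by ring

theorem cand_card_ge (j : ℕ) (hj : 1 ≤ j) : 4 * (3 * j) ^ 6 * (3 * j ^ 2) ^ 2 ≤ (Cand j).card := by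
  unfold Cand
  rw [Finset.card_product]
  have h := card_cand1_ge j hj
  calc 4 * (3 * j) ^ 6 * (3 * j ^ 2) ^ 2 =
      ((2 * (3 * j) ^ 3) * (3 * j ^ 2)) * ((2 * (3 * j) ^ 3) * (3 * j ^ 2)) := by ring
    _ ≤ _ := Nat.mul_le_mul h h

/-- one coordinate: separation in terms of cells -/
theorem coord_sep (j : ℕ) (x y : ℤ) (hx : x ∈ Cand1 j) (hy : y ∈ Cand1 j) :
    9 * (j : ℤ) ^ 2 * |y / (9 * (j : ℤ) ^ 2) - x / (9 * (j : ℤ) ^ 2)| - 3 * (j : ℤ) ^ 2 ≤ |x - y| := by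
  unfold Cand1 at hx hy
  rw [Finset.mem_filter] at hx hy
  have h1 := Int.mul_ediv_add_emod x (9 * (j : ℤ) ^ 2)
  have h2 := Int.mul_ediv_add_emod y (9 * (j : ℤ) ^ 2)
  obtain ⟨_, hx1, hx2⟩ := hx
  obtain ⟨_, hy1, hy2⟩ := hy
  set rx := x % (9 * (j : ℤ) ^ 2)
  set ry := y % (9 * (j : ℤ) ^ 2)
  set cx := x / (9 * (j : ℤ) ^ 2)
  set cy := y / (9 * (j : ℤ) ^ 2)
  have h3 : (0:ℤ) ≤ 9 * (j : ℤ) ^ 2 := by positivity
  have e : 9 * (j : ℤ) ^ 2 * |cy - cx| = |9 * (j : ℤ) ^ 2 * cy - 9 * (j : ℤ) ^ 2 * cx| := by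
    rw [← mul_sub, abs_mul, abs_of_nonneg h3]
  rw [e]
  have e2 : 9 * (j : ℤ) ^ 2 * cy - 9 * (j : ℤ) ^ 2 * cx = (y - x) - (ry - rx) := by linarith
  rw [e2]
  have h4 : |y - x - (ry - rx)| ≤ |y - x| + |ry - rx| := abs_sub _ _
  have h5 : |ry - rx| ≤ 3 * (j : ℤ) ^ 2 := by
    rw [abs_le]; constructor <;> linarith
  rw [abs_sub_comm x y]
  linarith

theorem sd_ge (j : ℕ) (a b : ℤ × ℤ) (ha : a ∈ Cand j) (hb : b ∈ Cand j) :
    9 * (j : ℝ) ^ 2 * (kd j a b : ℝ) - 3 * (j : ℝ) ^ 2 ≤ sd (toR a) (toR b) := by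
  unfold Cand at ha hb
  rw [Finset.mem_product] at ha hb
  have h1 := coord_sep j a.1 b.1 ha.1 hb.1
  have h2 := coord_sep j a.2 b.2 ha.2 hb.2
  have h1' : 9 * (j : ℝ) ^ 2 * (((cell j b).1 - (cell j a).1).natAbs : ℝ) - 3 * (j : ℝ) ^ 2 ≤
      |(a.1 : ℝ) - b.1| := by
    have : (9 * (j : ℤ) ^ 2 * (((cell j b).1 - (cell j a).1).natAbs : ℤ) - 3 * (j : ℤ) ^ 2 : ℤ) ≤
      |a.1 - b.1| := by
      rw [Int.natCast_natAbs]; exact h1
    exact_mod_cast this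
  have h2' : 9 * (j : ℝ) ^ 2 * (((cell j b).2 - (cell j a).2).natAbs : ℝ) - 3 * (j : ℝ) ^ 2 ≤
      |(a.2 : ℝ) - b.2| := by
    have : (9 * (j : ℤ) ^ 2 * (((cell j b).2 - (cell j a).2).natAbs : ℤ) - 3 * (j : ℤ) ^ 2 : ℤ) ≤
      |a.2 - b.2| := by
      rw [Int.natCast_natAbs]; exact h2
    exact_mod_cast this
  unfold sd toR kd
  simp only
  rcases max_cases ((cell j b).1 - (cell j a).1).natAbs ((cell j b).2 - (cell j a).2).natAbs with
    ⟨h, _⟩ | ⟨h, _⟩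
  · rw [h]; exact h1'.trans (le_max_left _ _)
  · rw [h]; exact h2'.trans (le_max_right _ _)

theorem kd_pos (j : ℕ) (a b : ℤ × ℤ) (h : cell j a ≠ cell j b) : 1 ≤ kd j a b := by
  unfold kd
  by_contra hcon
  apply h
  have h1 : ((cell j b).1 - (cell j a).1).natAbs = 0 := by omega
  have h2 : ((cell j b).2 - (cell j a).2).natAbs = 0 := by omega
  exact Prod.ext (by omega) (by omega)

/-- parameters -/
noncomputable def tau : ℝ := 3 / 2000
noncomputable def KK (j : ℕ) : ℝ := (3 * j) ^ 5 / 50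

open Classical in
noncomputable def FF (j : ℕ) (a b : ℤ × ℤ) : Finset (ℤ × ℤ) :=
  (Cand j).filter (fun u => cell j u ≠ cell j a ∧ Reg tau (KK j) (toR a) (toR b) (toR u))

theorem FF_card (j : ℕ) (hj : 1 ≤ j) (a b : ℤ × ℤ) (ha : a ∈ Cand j) (hb : b ∈ Cand j)
    (hab : cell j a ≠ cell j b) :
    ((FF j a b).card : ℝ) ≤
      if (kd j a b : ℝ) ≤ 12 / 100 * (3 * j) then
        (14 / 100 * (3 * (j : ℝ)) ^ 3 / kd j a b) * (2 + (3 * j) / (50 * (kd j a b : ℝ) ^ 2))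
      else 0 := by
  classical
  have hκ1 : (1 : ℝ) ≤ (kd j a b : ℝ) := by exact_mod_cast kd_pos j a b hab
  set κ : ℝ := (kd j a b : ℝ) with hκ
  set D := sd (toR a) (toR b) with hD
  have hjR : (1 : ℝ) ≤ (j : ℝ) := by exact_mod_cast hj
  set k : ℝ := 3 * (j : ℝ) with hk
  have hk3 : 3 ≤ k := by rw [hk]; linarith
  have hDge : 2 / 3 * κ * k ^ 2 ≤ D := by
    have := sd_ge j a b ha hb
    rw [← hD, ← hκ] at this
    have e : 2 / 3 * κ * k ^ 2 = 6 * (j : ℝ) ^ 2 * κ := by rw [hk]; ring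
    have e2 : (j : ℝ) ^ 2 ≤ (j : ℝ) ^ 2 * κ := by
      have : 0 ≤ (j : ℝ) ^ 2 := by positivity
      nlinarith
    rw [e]; nlinarith
  have hk2 : 9 ≤ k ^ 2 := by nlinarith
  have hD1 : 6 ≤ D := by
    have : 9 ≤ κ * k ^ 2 := by nlinarith
    nlinarith
  have hD0 : 0 < D := by linarith
  have hKK : KK j = k ^ 5 / 50 := by unfold KK; rw [hk]
  set x := 2 * KK j / D with hx
  have hxD : x * D = k ^ 5 / 25 := by
    rw [hx, hKK]; field_simp; ring
  have hx0 : 0 ≤ x := by rw [hx, hKK]; positivity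
  -- x ≤ 0.06 k^3/κ
  have hxle : x ≤ 6 / 100 * k ^ 3 / κ := by
    rw [le_div_iff₀ (by linarith)]
    have h1 : x * (2 / 3 * κ * k ^ 2) ≤ k ^ 5 / 25 := by
      rw [← hxD]; exact mul_le_mul_of_nonneg_left hDge hx0
    have h2 : (x * κ) * (2 / 3 * k ^ 2) ≤ (6 / 100 * k ^ 3) * (2 / 3 * k ^ 2) := by
      nlinarith
    exact le_of_mul_le_mul_right h2 (by positivity)
  by_cases hne : (FF j a b).Nonempty
  · obtain ⟨u, hu⟩ := hne
    unfold FF at hu
    rw [Finset.mem_filter] at hu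
    obtain ⟨huC, hucell, hureg⟩ := hu
    have hsdu : 2 / 3 * k ^ 2 ≤ sd (toR u) (toR a) := by
      have h1 := sd_ge j u a huC ha
      have h2 : (1 : ℝ) ≤ (kd j u a : ℝ) := by exact_mod_cast kd_pos j u a hucell
      have e : 2 / 3 * k ^ 2 = 6 * (j : ℝ) ^ 2 := by rw [hk]; ring
      rw [e]
      have : 0 ≤ (j : ℝ) ^ 2 := by positivity
      nlinarith
    have h3 : 2 / 3 * k ^ 2 ≤ x + tau := hsdu.trans hureg.1
    have h4 : k ^ 2 / 2 ≤ x := by
      unfold tau at h3; nlinarith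
    have h5 : k ^ 2 / 2 ≤ 6 / 100 * k ^ 3 / κ := h4.trans hxle
    have h6 : κ ≤ 12 / 100 * k := by
      rw [le_div_iff₀ (by linarith)] at h5
      have h7 : κ * (k ^ 2 / 2) ≤ (12 / 100 * k) * (k ^ 2 / 2) := by nlinarith
      exact le_of_mul_le_mul_right h7 (by positivity)
    rw [if_pos h6]
    -- strip
    set L : ℝ := 6 / 100 * k ^ 3 / κ + tau with hL
    set Θ : ℝ := 1 / 2 + k / (100 * κ ^ 2) with hΘ
    have htau : (tau : ℝ) = 3 / 2000 := rfl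
    have hκ0 : 0 < κ := by linarith
    have hcard : ((FF j a b).card : ℝ) ≤ (2 * L + 1) * (2 * Θ + 1) := by
      have hinj : Function.Injective (fun u : ℤ × ℤ => u - a) := sub_left_injective
      rw [← Finset.card_image_of_injective (FF j a b) hinj]
      have hmax : max |((b.1 - a.1 : ℤ) : ℝ)| |((b.2 - a.2 : ℤ) : ℝ)| = D := by
        rw [hD]; unfold sd toR; simp only; push_cast
        rw [abs_sub_comm (b.1 : ℝ), abs_sub_comm (b.2 : ℝ)]
      apply strip_card _ (b.1 - a.1) (b.2 - a.2) L Θ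
      · rw [hL, htau]; positivity
      · rw [hΘ]; positivity
      · rw [hmax]; exact hD0
      · intro w hw
        obtain ⟨u, hu, rfl⟩ := Finset.mem_image.mp hw
        unfold FF at hu
        rw [Finset.mem_filter] at hu
        have h8 := hu.2.2.1
        have h9 : |(u.1 : ℝ) - a.1| ≤ x + tau := (le_max_left _ _).trans h8
        simp only [Prod.fst_sub]; push_cast
        rw [hL]; linarith
      · intro w hw
        obtain ⟨u, hu, rfl⟩ := Finset.mem_image.mp hw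
        unfold FF at hu
        rw [Finset.mem_filter] at hu
        have h8 := hu.2.2.1
        have h9 : |(u.2 : ℝ) - a.2| ≤ x + tau := (le_max_right _ _).trans h8
        simp only [Prod.snd_sub]; push_cast
        rw [hL]; linarith
      · intro w hw
        obtain ⟨u, hu, rfl⟩ := Finset.mem_image.mp hw
        unfold FF at hu
        rw [Finset.mem_filter] at hu
        have h8 := hu.2.2.2
        rw [hmax]
        simp only [Prod.fst_sub, Prod.snd_sub]; push_cast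
        have h9 : |((u.1 : ℝ) - a.1) * (b.2 - a.2) - (u.2 - a.2) * (b.1 - a.1)| ≤
          4 * tau * (D + (x + tau)) := h8
        refine h9.trans ?_
        -- 4τ(D + x + τ) ≤ Θ D
        have h10 : x ≤ 9 / 100 * (k / κ ^ 2) * D := by
          have e1 : 9 / 100 * (k / κ ^ 2) * (2 / 3 * κ * k ^ 2) = 6 / 100 * k ^ 3 / κ := by
            field_simp; ring
          have e2 : 9 / 100 * (k / κ ^ 2) * (2 / 3 * κ * k ^ 2) ≤ 9 / 100 * (k / κ ^ 2) * D :=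
            mul_le_mul_of_nonneg_left hDge (by positivity)
          linarith
        rw [hΘ, htau]
        have e3 : k / (100 * κ ^ 2) = 1 / 100 * (k / κ ^ 2) := by field_simp
        rw [e3]
        have h11 : 0 ≤ k / κ ^ 2 * D := by positivity
        nlinarith
    refine hcard.trans ?_
    have e4 : 2 * Θ + 1 = 2 + k / (50 * κ ^ 2) := by rw [hΘ]; field_simp; ring
    rw [e4]
    apply mul_le_mul_of_nonneg_right _ (by positivity)
    -- 2L+1 ≤ 0.14 k^3/κ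
    have h12 : 75 ≤ k ^ 3 / κ := by
      have : k ^ 2 / 2 ≤ 6 / 100 * (k ^ 3 / κ) := by rw [← mul_div_assoc]; exact h5
      nlinarith
    rw [hL, htau, mul_div_assoc, mul_div_assoc]
    linarith
  · rw [Finset.not_nonempty_iff_eq_empty] at hne
    rw [hne]
    simp only [Finset.card_empty, Nat.cast_zero]
    split_ifs
    · positivity
    · exact le_rfl

end Pool.Agent.Balls
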