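import Pool.Agent.Lib.Balls.Greedy

set_option autoImplicit false

namespace Pool.Agent.Balls

theorem sum_inv_sq_aux (n : ℕ) :
    ∑ m ∈ Finset.Icc 1 (n + 1), (1 : ℝ) / (m : ℝ) ^ 2 ≤ 2 - 1 / ((n : ℝ) + 1) := by
  induction n with
  | zero => norm_num
  | succ n ih =>
    rw [Finset.sum_Icc_succ_top (by omega)]
    have hn : (0 : ℝ) ≤ (n : ℝ) := Nat.cast_nonneg n
    have h1 : (1 : ℝ) / ((n + 1 + 1 : ℕ) : ℝ) ^ 2 ≤ 1 / ((n : ℝ) + 1) - 1 / (((n + 1 : ℕ) : ℝ) + 1) := by
      push_cast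
      have e : 1 / ((n : ℝ) + 1) - 1 / ((n : ℝ) + 1 + 1) = 1 / (((n : ℝ) + 1) * ((n : ℝ) + 1 + 1)) := by
        field_simp; ring
      rw [e]
      apply one_div_le_one_div_of_le (by positivity)
      nlinarith
    linarith

theorem sum_inv_sq_le (n : ℕ) : ∑ m ∈ Finset.Icc 1 n, (1 : ℝ) / (m : ℝ) ^ 2 ≤ 2 := by
  cases n with
  | zero => norm_num
  | succ n =>
    have := sum_inv_sq_aux n
    have h : (0 : ℝ) ≤ 1 / ((n : ℝ) + 1) := by positivity
    linarith

theorem sphere_count (j : ℕ) (a : ℤ × ℤ) (T : Finset (ℤ × ℤ))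
    (hinj : Set.InjOn (cell j) (T : Set (ℤ × ℤ))) (m : ℕ) (hm : 1 ≤ m)
    (h : ∀ b ∈ T, kd j a b = m) : T.card ≤ 8 * m := by
  have hi : Set.InjOn (fun b => cell j b - cell j a) (T : Set (ℤ × ℤ)) := by
    intro x hx y hy hxy
    exact hinj hx hy (sub_left_injective hxy)
  rw [← Finset.card_image_of_injOn hi]
  apply card_sphere m hm
  intro w hw
  obtain ⟨b, hb, rfl⟩ := Finset.mem_image.mp hw
  exact h b hb

theorem sum_FF (j : ℕ) (hj : 1 ≤ j) (S : Finset (ℤ × ℤ)) (hS : S ⊆ Cand j)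
    (hinj : Set.InjOn (cell j) (S : Set (ℤ × ℤ))) (a : ℤ × ℤ) (ha : a ∈ S) :
    ∑ b ∈ S.erase a, (FF j a b).card ≤ 3 * (3 * j ^ 2) ^ 2 := by
  classical
  set k : ℝ := 3 * (j : ℝ) with hk
  have hjR : (1 : ℝ) ≤ (j : ℝ) := by exact_mod_cast hj
  have hk3 : 3 ≤ k := by rw [hk]; linarith
  have hk0 : 0 < k := by linarith
  set n : ℕ := ⌊12 / 100 * k⌋₊ with hn
  have hnk : (n : ℝ) ≤ 12 / 100 * k := Nat.floor_le (by positivity)
  set g : ℕ → ℝ := fun m => (14 / 100 * k ^ 3 / m) * (2 + k / (50 * (m : ℝ) ^ 2)) with hg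
  have hstep1 : ∑ b ∈ S.erase a, ((FF j a b).card : ℝ) ≤
      ∑ b ∈ S.erase a, if kd j a b ≤ n then g (kd j a b) else 0 := by
    apply Finset.sum_le_sum
    intro b hb
    rw [Finset.mem_erase] at hb
    have hcell : cell j a ≠ cell j b := fun h => hb.1 (hinj ha hb.2 h).symm
    have h1 := FF_card j hj a b (hS ha) (hS hb.2) hcell
    rw [← hk] at h1
    refine h1.trans ?_
    split_ifs with h2 h3 h3
    · exact le_rfl
    · exact absurd (Nat.le_floor h2) h3
    · exact absurd (le_trans (by exact_mod_cast h3) hnk) h2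
    · exact le_rfl
  rw [← Finset.sum_filter] at hstep1
  set T := (S.erase a).filter (fun b => kd j a b ≤ n) with hT
  have hstep2 : ∑ b ∈ T, g (kd j a b) =
      ∑ m ∈ Finset.Icc 1 n, ∑ b ∈ T with kd j a b = m, g (kd j a b) := by
    symm
    apply Finset.sum_fiberwise_of_maps_to
    intro b hb
    rw [hT, Finset.mem_filter, Finset.mem_erase] at hb
    rw [Finset.mem_Icc]
    refine ⟨kd_pos j a b fun h => hb.1.1 (hinj ha hb.1.2 h).symm, hb.2⟩
  have hstep3 : ∀ m ∈ Finset.Icc 1 n, ∑ b ∈ T with kd j a b = m, g (kd j a b) ≤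
      224 / 100 * k ^ 3 + 112 / 5000 * k ^ 4 * (1 / (m : ℝ) ^ 2) := by
    intro m hm
    rw [Finset.mem_Icc] at hm
    have hm0 : (0 : ℝ) < (m : ℝ) := by exact_mod_cast hm.1
    have hg0 : 0 ≤ g m := by rw [hg]; positivity
    have h1 : ∑ b ∈ T with kd j a b = m, g (kd j a b) =
        ((T.filter (fun b => kd j a b = m)).card : ℝ) * g m := by
      rw [Finset.sum_congr rfl (g := fun _ => g m)]
      · rw [Finset.sum_const, nsmul_eq_mul]
      · intro b hb
        rw [Finset.mem_filter] at hb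
        rw [hb.2]
    rw [h1]
    have h2 : (T.filter (fun b => kd j a b = m)).card ≤ 8 * m := by
      apply sphere_count j a _ _ m hm.1
      · intro b hb
        rw [Finset.mem_filter] at hb
        exact hb.2
      · apply hinj.mono
        intro b hb
        simp only [Finset.coe_filter, hT, Finset.mem_filter, Finset.mem_erase] at hb
        exact hb.1.1.2
    have h3 : ((T.filter (fun b => kd j a b = m)).card : ℝ) ≤ 8 * m := by exact_mod_cast h2
    calc _ ≤ (8 * (m : ℝ)) * g m := mul_le_mul_of_nonneg_right h3 hg0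
      _ = 224 / 100 * k ^ 3 + 112 / 5000 * k ^ 4 * (1 / (m : ℝ) ^ 2) := by
        rw [hg]; field_simp; ring
  have hstep4 : ∑ b ∈ T, g (kd j a b) ≤ k ^ 4 / 3 := by
    rw [hstep2]
    refine (Finset.sum_le_sum hstep3).trans ?_
    rw [Finset.sum_add_distrib, Finset.sum_const, ← Finset.mul_sum, Nat.card_Icc, nsmul_eq_mul]
    have h5 := sum_inv_sq_le n
    have h6 : 112 / 5000 * k ^ 4 * ∑ m ∈ Finset.Icc 1 n, 1 / (m : ℝ) ^ 2 ≤
        112 / 5000 * k ^ 4 * 2 := mul_le_mul_of_nonneg_left h5 (by positivity)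
    have h7 : ((n + 1 - 1 : ℕ) : ℝ) * (224 / 100 * k ^ 3) ≤ (12 / 100 * k) * (224 / 100 * k ^ 3) := by
      apply mul_le_mul_of_nonneg_right _ (by positivity)
      simpa using hnk
    have h8 : 0 ≤ k ^ 4 := by positivity
    nlinarith
  have hfin : ((∑ b ∈ S.erase a, (FF j a b).card : ℕ) : ℝ) ≤ ((3 * (3 * j ^ 2) ^ 2 : ℕ) : ℝ) := by
    push_cast
    refine (hstep1.trans hstep4).trans ?_
    rw [hk]
    have : (3 * (j : ℝ)) ^ 4 / 3 = 3 * (3 * (j : ℝ) ^ 2) ^ 2 := by ring
    rw [this]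
  exact_mod_cast hfin

/-- no bad triple among distinct elements -/
def Good (j : ℕ) (S : Finset (ℤ × ℤ)) : Prop :=
  ∀ a ∈ S, ∀ b ∈ S, ∀ c ∈ S, a ≠ b → b ≠ c → a ≠ c → ¬ Bad tau (KK j) (toR a) (toR b) (toR c)

theorem exists_free (j : ℕ) (hj : 1 ≤ j) (S : Finset (ℤ × ℤ)) (hS : S ⊆ Cand j)
    (hinj : Set.InjOn (cell j) (S : Set (ℤ × ℤ))) (hcard : S.card < (3 * j) ^ 6) :
    ∃ u ∈ Cand j, (∀ a ∈ S, cell j u ≠ cell j a) ∧
      ∀ a ∈ S, ∀ b ∈ S, a ≠ b → ¬ Reg tau (KK j) (toR a) (toR b) (toR u) := by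
  classical
  by_contra hcon
  push Not at hcon
  have hsub : Cand j ⊆ S.biUnion (fun a =>
      ((Cand j).filter (fun u => cell j u = cell j a)) ∪ (S.erase a).biUnion (fun b => FF j a b)) := by
    intro u hu
    rw [Finset.mem_biUnion]
    by_cases h1 : ∀ a ∈ S, cell j u ≠ cell j a
    · obtain ⟨a, ha, b, hb, hab, hreg⟩ := hcon u hu h1
      refine ⟨a, ha, ?_⟩
      rw [Finset.mem_union, Finset.mem_biUnion]
      right
      refine ⟨b, Finset.mem_erase.mpr ⟨hab.symm, hb⟩, ?_⟩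
      unfold FF
      rw [Finset.mem_filter]
      exact ⟨hu, h1 a ha, hreg⟩
    · push Not at h1
      obtain ⟨a, ha, h2⟩ := h1
      refine ⟨a, ha, ?_⟩
      rw [Finset.mem_union]
      left
      rw [Finset.mem_filter]
      exact ⟨hu, h2⟩
  have h1 := Finset.card_le_card hsub
  have h2 : (S.biUnion (fun a =>
      ((Cand j).filter (fun u => cell j u = cell j a)) ∪
        (S.erase a).biUnion (fun b => FF j a b))).card ≤ S.card * (4 * (3 * j ^ 2) ^ 2) := by
    apply Finset.card_biUnion_le_card_mul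
    intro a ha
    refine (Finset.card_union_le _ _).trans ?_
    have h3 := cand_fiber j hj a
    have h4 : ((S.erase a).biUnion (fun b => FF j a b)).card ≤ 3 * (3 * j ^ 2) ^ 2 :=
      Finset.card_biUnion_le.trans (sum_FF j hj S hS hinj a ha)
    omega
  have h3 := cand_card_ge j hj
  have h4 : 0 < 4 * (3 * j ^ 2) ^ 2 := by positivity
  have h5 : S.card * (4 * (3 * j ^ 2) ^ 2) < (3 * j) ^ 6 * (4 * (3 * j ^ 2) ^ 2) :=
    Nat.mul_lt_mul_of_pos_right hcard h4
  have h6 : 4 * (3 * j) ^ 6 * (3 * j ^ 2) ^ 2 = (3 * j) ^ 6 * (4 * (3 * j ^ 2) ^ 2) := by ring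
  omega

theorem sd_toR_pos (j : ℕ) (hj : 1 ≤ j) (a b : ℤ × ℤ) (ha : a ∈ Cand j) (hb : b ∈ Cand j)
    (hab : cell j a ≠ cell j b) : 6 ≤ sd (toR a) (toR b) := by
  have h1 := sd_ge j a b ha hb
  have h2 : (1 : ℝ) ≤ (kd j a b : ℝ) := by exact_mod_cast kd_pos j a b hab
  have hjR : (1 : ℝ) ≤ (j : ℝ) := by exact_mod_cast hj
  have h3 : (1 : ℝ) ≤ (j : ℝ) ^ 2 := by nlinarith
  nlinarith

theorem greedy (j : ℕ) (hj : 1 ≤ j) (m : ℕ) (hm : m ≤ (3 * j) ^ 6) :
    ∃ S : Finset (ℤ × ℤ), S ⊆ Cand j ∧ S.card = m ∧ Set.InjOn (cell j) (S : Set (ℤ × ℤ)) ∧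
      Good j S := by
  classical
  induction m with
  | zero => exact ⟨∅, by simp, by simp, by simp, by intro a ha; simp at ha⟩
  | succ m ih =>
    obtain ⟨S, hS, hcard, hinj, hgood⟩ := ih (by omega)
    obtain ⟨u, hu, hcell, hreg⟩ := exists_free j hj S hS hinj (by omega)
    have huS : u ∉ S := fun h => hcell u h rfl
    have htau : (0 : ℝ) ≤ tau := by unfold tau; norm_num
    have hsd : ∀ a ∈ S, ∀ b ∈ S, a ≠ b → 6 ≤ sd (toR a) (toR b) := by
      intro a ha b hb hab
      exact sd_toR_pos j hj a b (hS ha) (hS hb) fun h => hab (hinj ha hb h)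
    have hend : ∀ a ∈ S, ∀ b ∈ S, a ≠ b → ¬ Bad tau (KK j) (toR u) (toR a) (toR b) := by
      intro a ha b hb hab hbad
      have h6 := hsd a ha b hb hab
      exact hreg a ha b hb hab (reg_of_bad_end htau (by unfold tau; linarith) (by linarith) hbad)
    refine ⟨insert u S, ?_, ?_, ?_, ?_⟩
    · exact Finset.insert_subset hu hS
    · rw [Finset.card_insert_of_notMem huS, hcard]
    · intro x hx y hy hxy
      simp only [Finset.coe_insert, Set.mem_insert_iff, Finset.mem_coe] at hx hy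
      rcases hx with rfl | hx <;> rcases hy with rfl | hy
      · rfl
      · exact absurd hxy (hcell y hy)
      · exact absurd hxy.symm (hcell x hx)
      · exact hinj hx hy hxy
    · intro a ha b hb c hc hab hbc hac
      rw [Finset.mem_insert] at ha hb hc
      rcases ha with rfl | ha
      · have hb' : b ∈ S := hb.resolve_left fun h => hab h.symm
        have hc' : c ∈ S := hc.resolve_left fun h => hac h.symm
        exact hend b hb' c hc' hbc
      · rcases hc with rfl | hc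
        · have hb' : b ∈ S := hb.resolve_left hbc
          intro hbad
          exact hend b hb' a ha hab.symm hbad.symm
        · rcases hb with rfl | hb
          · intro hbad
            have h6 := hsd a ha c hc hac
            rcases reg_of_bad_middle htau (by linarith) hbad with h | h
            · exact hreg a ha c hc hac h
            · exact hreg c hc a ha hac.symm h
          · exact hgood a ha b hb c hc hab hbc hac

end Pool.Agent.Balls
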